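import Pool.Agent.L0h99.MN.Stm2

set_option autoImplicit false

/-!
# Module SEP of project MD: a smallest counterexample has no separating clique
-/

namespace Pool.Agent.L0h48.MD

open Finset Pool.Agent.L0h99.MN Pool.Agent.L0h99.MD

theorem small (hI : St_IDU) (hE : St_EIN) (hV : St_EVN) {V : Type} [Fintype V] [DecidableEq V]
    {G : SimpleGraph V} (hm : MinBad V G) (S : Finset V) (h4 : 4 ≤ S.card)
    (hn : S.card < Fintype.card V) : ee G S S ≤ 8 * (S.card : ℤ) - 20 := by
  have h1 := hm.smaller {z // z ∈ S} (G.comap Subtype.val) (by rw [Fintype.card_coe]; exact hn)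
  have h2 := hE V {z // z ∈ S} Subtype.val G Subtype.val_injective
  have h3 : univ.image (Subtype.val : {z // z ∈ S} → V) = S := by
    ext x
    simp
  rw [h3] at h2
  obtain ⟨m, hm'⟩ := hV {z // z ∈ S} (G.comap Subtype.val)
  by_contra hc
  rw [not_le] at hc
  apply h1
  refine ⟨by rw [Fintype.card_coe]; exact h4, ?_,
    fun hk => hm.bad.2.2 (hI V _ _ G Subtype.val_injective hk)⟩
  rw [Fintype.card_coe]
  omega

theorem SEP : St_SEP := by
  intro hI hE hV V _ _ G D K v hm h5 hD hK hvD hvK hcl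
  have hDK : Disjoint D K := by
    rw [Finset.disjoint_left]
    intro x hx hx'
    exact ((hK x).1 hx').1 hx
  -- neighbours of elements of `D`
  have hND : ∀ x ∈ D, N G x ⊆ D ∪ K := by
    intro x hx y hy
    rw [mem_N] at hy
    rw [mem_union]
    by_cases h : y ∈ D
    · exact Or.inl h
    · exact Or.inr ((hK y).2 ⟨h, x, hx, hy⟩)
  -- neighbours of the vertices outside
  have hNO : ∀ x, x ∉ D → x ∉ K → N G x ⊆ univ \ D := by
    intro x hx hx' y hy
    rw [mem_N] at hy
    rw [mem_sdiff]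
    refine ⟨mem_univ _, fun h => hx' ((hK x).2 ⟨hx, y, h, hy.symm⟩)⟩
  have hc1 : 4 ≤ (D ∪ K).card := by
    obtain ⟨d, hd⟩ := hD
    exact le_trans (by norm_num) (le_trans (h5 d) (card_le_card (hND d hd)))
  have hc2 : 4 ≤ (univ \ D : Finset V).card :=
    le_trans (by norm_num) (le_trans (h5 v) (card_le_card (hNO v hvD hvK)))
  have hn1 : (D ∪ K).card < Fintype.card V := by
    rw [← card_univ]
    apply card_lt_card
    rw [Finset.ssubset_univ_iff]
    intro h
    have h1 : v ∈ D ∪ K := by rw [h]; exact mem_univ _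
    rw [mem_union] at h1
    exact h1.elim hvD hvK
  have hn2 : (univ \ D : Finset V).card < Fintype.card V := by
    rw [← card_univ]
    apply card_lt_card
    rw [Finset.ssubset_univ_iff]
    intro h
    obtain ⟨d, hd⟩ := hD
    have h1 : d ∈ (univ \ D : Finset V) := by rw [h]; exact mem_univ _
    rw [mem_sdiff] at h1
    exact h1.2 hd
  have hs1 := small hI hE hV hm _ hc1 hn1
  have hs2 := small hI hE hV hm _ hc2 hn2
  have hcd : (D ∪ K).card = D.card + K.card := card_union_of_disjoint hDK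
  have hcu : (univ \ D : Finset V).card + D.card = Fintype.card V := by
    rw [card_sdiff_add_card_eq_card (subset_univ D), card_univ]
  -- the sums
  have e1 : ee G (D ∪ K) (D ∪ K) =
      ∑ x ∈ D, ((N G x).card : ℤ) + ∑ x ∈ K, ((N G x ∩ (D ∪ K)).card : ℤ) := by
    unfold ee
    rw [sum_union hDK]
    congr 1
    refine sum_congr rfl fun x hx => ?_
    rw [inter_eq_left.2 (hND x hx)]
  have e2 : ee G (univ \ D) (univ \ D) =
      ∑ x ∈ univ \ (D ∪ K), ((N G x).card : ℤ) + ∑ x ∈ K, ((N G x ∩ (univ \ D)).card : ℤ) := by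
    unfold ee
    have h1 : (univ \ D : Finset V) = (univ \ (D ∪ K)) ∪ K := by
      ext x
      simp only [mem_sdiff, mem_univ, true_and, mem_union, not_or]
      constructor
      · intro h
        by_cases h' : x ∈ K
        · exact Or.inr h'
        · exact Or.inl ⟨h, h'⟩
      · rintro (h | h)
        · exact h.1
        · exact ((hK x).1 h).1
    have h2 : Disjoint (univ \ (D ∪ K)) K := by
      rw [Finset.disjoint_left]
      intro x hx hx'
      rw [mem_sdiff] at hx
      exact hx.2 (mem_union_right _ hx')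
    have h3 : ∑ x ∈ univ \ D, ((N G x ∩ (univ \ D)).card : ℤ) =
        ∑ x ∈ (univ \ (D ∪ K)) ∪ K, ((N G x ∩ (univ \ D)).card : ℤ) := by
      rw [← h1]
    rw [h3, sum_union h2]
    congr 1
    refine sum_congr rfl fun x hx => ?_
    rw [mem_sdiff, mem_union, not_or] at hx
    rw [inter_eq_left.2 (hNO x hx.2.1 hx.2.2)]
  have e3 : E2 G = ∑ x ∈ D, ((N G x).card : ℤ) + ∑ x ∈ univ \ (D ∪ K), ((N G x).card : ℤ) +
      ∑ x ∈ K, ((N G x).card : ℤ) := by
    unfold E2
    rw [← sum_sdiff (subset_univ (D ∪ K)), sum_union hDK]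
    ring
  have e4 : ∀ x ∈ K, ((N G x ∩ (D ∪ K)).card : ℤ) + ((N G x ∩ (univ \ D)).card : ℤ) =
      ((N G x).card : ℤ) + ((K.card : ℤ) - 1) := by
    intro x hx
    have h1 : N G x ∩ (D ∪ K) = (N G x ∩ D) ∪ (N G x ∩ K) := inter_union_distrib_left _ _ _
    have h2 : Disjoint (N G x ∩ D) (N G x ∩ K) :=
      Disjoint.mono inter_subset_right inter_subset_right hDK
    have h3 : N G x ∩ K = K.erase x := by
      ext y
      rw [mem_inter, mem_N, mem_erase]
      constructor
      · intro h
        exact ⟨h.1.ne', h.2⟩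
      · intro h
        exact ⟨hcl x hx y h.2 h.1.symm, h.2⟩
    have h4 : N G x ∩ (univ \ D) = N G x \ D := by
      ext y
      simp only [mem_inter, mem_sdiff, mem_univ, true_and]
    have h6 : (N G x \ D).card + (N G x ∩ D).card = (N G x).card :=
      card_sdiff_add_card_inter _ _
    have h7 : (K.erase x).card + 1 = K.card := card_erase_add_one hx
    rw [h1, card_union_of_disjoint h2, h3, h4]
    push_cast
    omega
  have e5 : ee G (D ∪ K) (D ∪ K) + ee G (univ \ D) (univ \ D) =
      E2 G + (K.card : ℤ) * ((K.card : ℤ) - 1) := by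
    have h1 : ∑ x ∈ K, ((N G x ∩ (D ∪ K)).card : ℤ) + ∑ x ∈ K, ((N G x ∩ (univ \ D)).card : ℤ) =
        ∑ x ∈ K, ((N G x).card : ℤ) + (K.card : ℤ) * ((K.card : ℤ) - 1) := by
      rw [← sum_add_distrib, sum_congr rfl e4, sum_add_distrib, sum_const, nsmul_eq_mul]
    rw [e1, e2, e3]
    linarith
  have hb := hm.bad.2.1
  rw [hcd] at hs1
  push_cast at hs1
  have hcu' : (((univ \ D : Finset V).card : ℕ) : ℤ) = (Fintype.card V : ℤ) - (D.card : ℤ) := by
    rw [← hcu]
    push_cast
    ring
  rw [hcu'] at hs2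
  nlinarith [sq_nonneg (2 * (K.card : ℤ) - 9)]

end Pool.Agent.L0h48.MD
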